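import Pool.Agent.Lib.MP_f25cb6_lc.Comb

/-! # From a full schedule to a clique -/

namespace Pool.Agent.Lib.MP_f25cb6_lc

open Finset

/-- decoding of a position -/
theorem decode_pos {N k ρ i j q : ℕ} (hi : i < k) (hj : j < k) (hq : q < 2 * N + 1) :
    qs N (ρ * (k * (k * (2 * N + 1))) + ((i * k + j) * (2 * N + 1) + q)) = q ∧
    js N k (ρ * (k * (k * (2 * N + 1))) + ((i * k + j) * (2 * N + 1) + q)) = j ∧
    is N k (ρ * (k * (k * (2 * N + 1))) + ((i * k + j) * (2 * N + 1) + q)) = i := by
  have hk : 0 < k := by omega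
  have hM : 0 < 2 * N + 1 := by omega
  have e : ρ * (k * (k * (2 * N + 1))) + ((i * k + j) * (2 * N + 1) + q) =
      q + (2 * N + 1) * (j + k * (i + k * ρ)) := by ring
  have h1 : (q + (2 * N + 1) * (j + k * (i + k * ρ))) / (2 * N + 1) = j + k * (i + k * ρ) := by
    rw [Nat.add_mul_div_left _ _ hM, Nat.div_eq_of_lt hq, zero_add]
  rw [e]
  refine ⟨?_, ?_, ?_⟩
  · unfold qs
    rw [Nat.add_mul_mod_self_left, Nat.mod_eq_of_lt hq]
  · unfold js
    rw [h1, Nat.add_mul_mod_self_left, Nat.mod_eq_of_lt hj]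
  · unfold is
    rw [h1, Nat.add_mul_div_left _ _ hk, Nat.div_eq_of_lt hj, zero_add, Nat.add_mul_mod_self_left,
      Nat.mod_eq_of_lt hi]

/-- monotone functions with few values are constant on a common block -/
theorem exists_block {N k L : ℕ} (hk : 0 < k) (hN : 0 < N) (hL : 0 < L) (o : ℕ → ℕ → ℕ)
    (hlt : ∀ l < k, ∀ s < (k * N + 1) * L, o l s < N)
    (hmono : ∀ l < k, ∀ s, s + 1 < (k * N + 1) * L → o l s ≤ o l (s + 1)) :
    ∃ ρ ≤ k * N, ∀ l < k, ∀ d < L, o l (ρ * L + d) = o l (ρ * L) := by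
  have hmono' : ∀ l < k, ∀ s d, s + d < (k * N + 1) * L → o l s ≤ o l (s + d) := by
    intro l hl s d
    induction d with
    | zero => intro _; exact le_rfl
    | succ d ih =>
      intro h
      exact (ih (by omega)).trans (hmono l hl (s + d) (by omega))
  by_contra hcon
  push Not at hcon
  have hblock : ∀ ρ ≤ k * N, ρ * L + L ≤ (k * N + 1) * L := by
    intro ρ hρ
    have : (ρ + 1) * L ≤ (k * N + 1) * L := Nat.mul_le_mul_right _ (by omega)
    calc ρ * L + L = (ρ + 1) * L := by ring
      _ ≤ _ := this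
  have hstep : ∀ ρ, ρ + 1 ≤ k * N →
      (∑ l ∈ range k, o l (ρ * L)) + 1 ≤ ∑ l ∈ range k, o l ((ρ + 1) * L) := by
    intro ρ hρ
    have hb := hblock (ρ + 1) hρ
    have e1 : (ρ + 1) * L = ρ * L + L := by ring
    obtain ⟨l, hl, d, hd, hne⟩ := hcon ρ (by omega)
    have hle : ∀ l' < k, o l' (ρ * L) ≤ o l' ((ρ + 1) * L) := by
      intro l' hl'
      rw [e1]
      exact hmono' l' hl' _ _ (by rw [← e1]; omega)
    have hlt' : o l (ρ * L) < o l ((ρ + 1) * L) := by
      have h1 := hmono' l hl (ρ * L) d (by omega)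
      have h2 := hmono' l hl (ρ * L + d) (L - d) (by
        have : ρ * L + d + (L - d) = (ρ + 1) * L := by omega
        omega)
      have h3 : ρ * L + d + (L - d) = (ρ + 1) * L := by omega
      rw [h3] at h2
      omega
    have := Finset.sum_lt_sum (s := range k) (f := fun l => o l (ρ * L))
      (g := fun l => o l ((ρ + 1) * L)) (fun l' hl' => hle l' (Finset.mem_range.1 hl'))
      ⟨l, Finset.mem_range.2 hl, hlt'⟩
    omega
  have hsum : ∀ ρ, ρ ≤ k * N → ρ ≤ ∑ l ∈ range k, o l (ρ * L) := by
    intro ρ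
    induction ρ with
    | zero => intro _; exact Nat.zero_le _
    | succ ρ ih =>
      intro h
      have h1 := ih (by omega)
      have h2 := hstep ρ h
      omega
  have h1 := hsum (k * N) le_rfl
  have h2 : ∑ l ∈ range k, o l (k * N * L) ≤ ∑ l ∈ range k, (N - 1) := by
    refine Finset.sum_le_sum fun l hl => ?_
    have h3 := hlt l (Finset.mem_range.1 hl) (k * N * L) (by
      have := hblock (k * N) le_rfl
      omega)
    omega
  rw [Finset.sum_const, Finset.card_range, smul_eq_mul] at h2
  have h3 : k * (N - 1) < k * N := by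
    have : N - 1 < N := by omega
    exact Nat.mul_lt_mul_of_pos_left this hk
  omega

variable {adj : ℕ → ℕ → Bool}

theorem clique_of_sel {N k : ℕ} (hk : 0 < k) (sel : Finset Tag) (mach : Tag → ℕ)
    (htag : ∀ t ∈ sel, t ∈ tags adj N k) (hlt : ∀ t ∈ sel, mach t < k)
    (helg : ∀ t ∈ sel, mach t ∈ elg adj N k t)
    (hd : ∀ t ∈ sel, ∀ t' ∈ sel, t ≠ t' → mach t = mach t' → Disj N k t t')
    (hcard : 2 * (k * S N k) ≤ sel.card) :
    ∃ v : ℕ → ℕ, (∀ i < k, v i < N) ∧ ∀ i < k, ∀ j < k, i ≠ j → adj (v i) (v j) = true := by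
  classical
  have htag' : ∀ s l a c, ((s, l, a), c) ∈ sel → s < S N k ∧ l < k ∧ a < N ∧
      ok adj N k ((s, l, a), c) = true := by
    intro s l a c h
    have := mem_tags.1 (htag _ h)
    exact ⟨this.1.1, this.1.2.1, this.1.2.2, this.2⟩
  -- every family of every machine is used
  have hsurj : ∀ l < k, ∀ s < S N k, ∀ c : Bool, ∃ l1 a, ((s, l1, a), c) ∈ sel ∧
      mach ((s, l1, a), c) = l := by
    have hinj : Set.InjOn (fun t : Tag => ((mach t, t.1.1), t.2)) (sel : Set Tag) := by
      rintro ⟨⟨s, l1, a⟩, c⟩ h1 ⟨⟨s', l1', a'⟩, c'⟩ h2 h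
      simp only [Prod.mk.injEq] at h
      obtain ⟨⟨h3, h4⟩, h5⟩ := h
      subst h4
      subst h5
      by_contra hne
      have h6 := hd _ h1 _ h2 hne h3
      have h7 := helg _ h1
      have h8 := helg _ h2
      rw [← h3] at h8
      exact not_disj_same h7 h8 (htag' _ _ _ _ h1).2.2.1 (htag' _ _ _ _ h2).2.2.1 h6
    have himg : sel.image (fun t : Tag => ((mach t, t.1.1), t.2)) =
        (range k ×ˢ range (S N k)) ×ˢ (univ : Finset Bool) := by
      refine Finset.eq_of_subset_of_card_le ?_ ?_
      · intro x hx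
        obtain ⟨⟨⟨s, l1, a⟩, c⟩, h1, rfl⟩ := Finset.mem_image.1 hx
        simp only [Finset.mem_product, Finset.mem_range, Finset.mem_univ, and_true]
        exact ⟨hlt _ h1, (htag' _ _ _ _ h1).1⟩
      · rw [Finset.card_image_of_injOn hinj, Finset.card_product, Finset.card_product,
          Finset.card_range, Finset.card_range, Finset.card_univ, Fintype.card_bool]
        calc k * S N k * 2 = 2 * (k * S N k) := by ring
          _ ≤ _ := hcard
    intro l hl s hs c
    have h1 : ((l, s), c) ∈ sel.image (fun t : Tag => ((mach t, t.1.1), t.2)) := by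
      rw [himg]
      simp only [Finset.mem_product, Finset.mem_range, Finset.mem_univ, and_true]
      exact ⟨hl, hs⟩
    obtain ⟨⟨⟨s', l1, a⟩, c'⟩, h2, h3⟩ := Finset.mem_image.1 h1
    simp only [Prod.mk.injEq] at h3
    obtain ⟨⟨h4, h5⟩, h6⟩ := h3
    subst h5
    subst h6
    exact ⟨l1, a, h2, h4⟩
  choose! G Ga hG hGm using fun l (hl : l < k) s (hs : s < S N k) => hsurj l hl s hs true
  choose! C Ca hC hCm using fun l (hl : l < k) s (hs : s < S N k) => hsurj l hl s hs false
  set L := k * (k * (2 * N + 1)) with hLdef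
  have hL : 0 < L := by
    rw [hLdef]
    positivity
  have hSL : S N k = (k * N + 1) * L := rfl
  have hS : 0 < S N k := by rw [hSL]; positivity
  have hN : 0 < N := by
    have := (htag' _ _ _ _ (hG 0 hk 0 hS)).2.2.1
    omega
  set o : ℕ → ℕ → ℕ := fun l s => off N l ((s, G l s, Ga l s), true) with ho
  have helG : ∀ l < k, ∀ s < S N k, l ∈ elg adj N k ((s, G l s, Ga l s), true) := by
    intro l hl s hs
    have := helg _ (hG l hl s hs)
    rwa [hGm l hl s hs] at this
  have helC : ∀ l < k, ∀ s < S N k, l ∈ elg adj N k ((s, C l s, Ca l s), false) := by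
    intro l hl s hs
    have := helg _ (hC l hl s hs)
    rwa [hCm l hl s hs] at this
  have holt : ∀ l < k, ∀ s < (k * N + 1) * L, o l s < N := by
    intro l hl s hs
    exact (view_gap (helG l hl s hs) (htag' _ _ _ _ (hG l hl s hs)).2.2.1).2.2
  have homono : ∀ l < k, ∀ s, s + 1 < (k * N + 1) * L → o l s ≤ o l (s + 1) := by
    intro l hl s hs
    have hs0 : s < S N k := by rw [hSL]; omega
    have h1 : o l s ≤ Ca l s := by
      refine off_gap_chain (helG l hl s hs0) (helC l hl s hs0)
        (htag' _ _ _ _ (hG l hl s hs0)).2.2.1 (hd _ (hG l hl s hs0) _ (hC l hl s hs0) ?_ ?_)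
      · intro h
        have := congrArg Prod.snd h
        simp at this
      · rw [hGm l hl s hs0, hCm l hl s hs0]
    have h2 : Ca l s ≤ o l (s + 1) := by
      refine off_chain_gap (helG l hl (s + 1) hs) (helC l hl s hs0)
        (htag' _ _ _ _ (hG l hl (s + 1) hs)).2.2.1 (htag' _ _ _ _ (hC l hl s hs0)).2.2.1
        (hd _ (hC l hl s hs0) _ (hG l hl (s + 1) hs) ?_ ?_)
      · intro h
        have := congrArg Prod.snd h
        simp at this
      · rw [hGm l hl (s + 1) hs, hCm l hl s hs0]
    exact h1.trans h2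
  obtain ⟨ρ, hρ, hconst⟩ := exists_block hk hN hL o holt homono
  have hρL : ρ * L + L ≤ S N k := by
    rw [hSL]
    have : (ρ + 1) * L ≤ (k * N + 1) * L := Nat.mul_le_mul_right _ (by omega)
    calc ρ * L + L = (ρ + 1) * L := by ring
      _ ≤ _ := this
  refine ⟨fun i => o i (ρ * L), fun i hi => holt i hi _ (by rw [← hSL]; omega), ?_⟩
  intro i hi j hj hij
  set vi := o i (ρ * L) with hvi
  set vj := o j (ρ * L) with hvj
  have hviN : vi < N := holt i hi _ (by rw [← hSL]; omega)
  have hvjN : vj < N := holt j hj _ (by rw [← hSL]; omega)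
  set q := N + vi - vj with hq
  have hq1 : q < 2 * N + 1 := by omega
  have hd1 : (i * k + j) * (2 * N + 1) + q < L := by
    have h1 : i * k + j + 1 ≤ k * k := by
      have : (i + 1) * k ≤ k * k := Nat.mul_le_mul_right _ hi
      nlinarith
    have h2 : (i * k + j + 1) * (2 * N + 1) ≤ k * k * (2 * N + 1) := Nat.mul_le_mul_right _ h1
    have h3 : k * k * (2 * N + 1) = L := by rw [hLdef]; ring
    have h4 : (i * k + j + 1) * (2 * N + 1) = (i * k + j) * (2 * N + 1) + (2 * N + 1) := by ring
    omega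
  set s := ρ * L + ((i * k + j) * (2 * N + 1) + q) with hs
  have hsS : s < S N k := by omega
  obtain ⟨e1, e2, e3⟩ := decode_pos (N := N) (k := k) (ρ := ρ) hi hj hq1
  rw [← hLdef, ← hs] at e1 e2 e3
  have hoi : o i s = vi := hconst i hi _ hd1
  have hoj : o j s = vj := hconst j hj _ hd1
  have hne : is N k s ≠ js N k s := by rw [e2, e3]; exact hij
  -- the gap job of machine `i`
  have hGi : G i s = i ∧ Ga i s = vi := by
    rcases mem_elg (helG i hi s hsS) with h | ⟨-, h, -⟩
    · simp only at h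
      refine ⟨h.symm, ?_⟩
      rw [← hoi]
      simp only [ho, off]
      rw [if_pos h]
    · simp only at h
      rw [e2] at h
      exact absurd h hij
  by_contra hadj
  rw [Bool.not_eq_true] at hadj
  rcases mem_elg (helG j hj s hsS) with h | ⟨-, h1, h2, h3, h4, h5, h6, h7⟩
  · simp only at h
    have hGa : Ga j s = vj := by
      rw [← hoj]
      simp only [ho, off]
      rw [if_pos h]
    have hok := (htag' _ _ _ _ (hG j hj s hsS)).2.2.2
    rw [← h, hGa] at hok
    have : shJ adj N k s vj = true := by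
      unfold shJ
      rw [e1]
      simp only [Bool.and_eq_true, decide_eq_true_eq]
      refine ⟨hne, by omega, by omega, ?_⟩
      have : q + vj - N = vi := by omega
      rw [this, hadj]
      rfl
    simp only [ok, this, e2] at hok
    simp at hok
  · simp only at h1 h2 h3 h4 h5 h6 h7
    have hoff : N + Ga j s - qs N s = vj := by
      rw [← hoj]
      simp only [ho, off]
      rw [if_neg h3]
    rw [e1] at hoff h5
    have hGa : Ga j s = vi := by omega
    have hsame : (((s, G j s, Ga j s), true) : Tag) = ((s, G i s, Ga i s), true) := by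
      rw [h2, e3, hGa, hGi.1, hGi.2]
    have hm1 := hGm j hj s hsS
    rw [hsame, hGm i hi s hsS] at hm1
    exact hij hm1

end Pool.Agent.Lib.MP_f25cb6_lc
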