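import Pool.Agent.Lib.MP_f25cb6_lc.Defs
import Pool.Agent.Lib.MP_be4430_lc.P3_ToBin

/-! # The instance of the reduction -/

namespace Pool.Agent.Lib.MP_f25cb6_lc

open MP_634427_lc MP_be4430_lc

/-- number of positions -/
def S (N k : ℕ) : ℕ := (k * N + 1) * (k * (k * (2 * N + 1)))

/-- the shift tested at position `s` -/
def qs (N s : ℕ) : ℕ := s % (2 * N + 1)

/-- the second machine of position `s` -/
def js (N k s : ℕ) : ℕ := s / (2 * N + 1) % k

/-- the first machine of position `s` -/
def is (N k s : ℕ) : ℕ := s / (2 * N + 1) / k % k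

/-- the shift of the comb of machine `l` at position `s` -/
def shift (N k l s : ℕ) : ℕ := if l = js N k s ∧ is N k s ≠ js N k s then qs N s else N

/-- the comb of machine `l` -/
def pos (N k l s : ℕ) : ℕ := (5 * N + 5) * (s + 1) + shift N k l s

variable (adj : ℕ → ℕ → Bool)

/-- machine `is` at offset `a` needs the shared job -/
def shI (N k s a : ℕ) : Bool :=
  decide (is N k s ≠ js N k s) && (decide (qs N s ≤ N + a) && (decide (N + a - qs N s < N) &&
    !adj a (N + a - qs N s)))

/-- machine `js` at offset `b` needs the shared job -/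
def shJ (N k s b : ℕ) : Bool :=
  decide (is N k s ≠ js N k s) && (decide (N ≤ qs N s + b) && (decide (qs N s + b - N < N) &&
    !adj (qs N s + b - N) b))

/-- A tag: position, machine, offset, and kind (`true` for gap jobs, `false` for chain jobs). -/
abbrev Tag := (ℕ × ℕ × ℕ) × Bool

/-- does the tag name a job of its own? -/
def ok (N k : ℕ) (t : Tag) : Bool :=
  !(t.2 && (decide (t.1.2.1 = js N k t.1.1) && shJ adj N k t.1.1 t.1.2.2))

/-- eligible machines of the job -/
def elg (N k : ℕ) (t : Tag) : List ℕ :=
  if t.2 && (decide (t.1.2.1 = is N k t.1.1) && shI adj N k t.1.1 t.1.2.2) then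
    [t.1.2.1, js N k t.1.1] else [t.1.2.1]

/-- start of the job -/
def st (N k : ℕ) (t : Tag) : ℕ :=
  if t.2 then pos N k t.1.2.1 t.1.1 + t.1.2.2 - (N + 1) else pos N k t.1.2.1 t.1.1 + t.1.2.2

/-- end of the job -/
def en (N k : ℕ) (t : Tag) : ℕ :=
  if t.2 then pos N k t.1.2.1 t.1.1 + t.1.2.2 else
    pos N k t.1.2.1 (t.1.1 + 1) + t.1.2.2 - (N + 1)

/-- the job of a tag -/
def jobOf (N k : ℕ) (t : Tag) : Job :=
  ((toBin (st N k t), toBin (en N k t)), ([true], elg adj N k t))

/-- all tags -/
def tags (N k : ℕ) : List Tag :=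
  (((List.range (S N k)).product ((List.range k).product (List.range N))).product
    [false, true]).filter (ok adj N k)

/-- the jobs -/
def jobs (N k : ℕ) : List Job := (tags adj N k).map (jobOf adj N k)

variable {adj}

theorem nodup_tags (N k : ℕ) : (tags adj N k).Nodup := by
  unfold tags
  refine List.Nodup.filter _ (List.Nodup.product (List.Nodup.product List.nodup_range
    (List.Nodup.product List.nodup_range List.nodup_range)) (by decide))

theorem mem_tags {N k : ℕ} {s l a : ℕ} {c : Bool} :
    ((s, l, a), c) ∈ tags adj N k ↔ (s < S N k ∧ l < k ∧ a < N) ∧ ok adj N k ((s, l, a), c) = true := by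
  unfold tags
  rw [List.mem_filter]
  simp only [List.pair_mem_product, List.mem_range]
  cases c <;> simp

@[simp] theorem release_jobOf (N k : ℕ) (t : Tag) : release (jobOf adj N k t) = st N k t := by
  simp [release, jobOf, bval_toBin]

@[simp] theorem due_jobOf (N k : ℕ) (t : Tag) : due (jobOf adj N k t) = en N k t := by
  simp [due, jobOf, bval_toBin]

@[simp] theorem weight_jobOf (N k : ℕ) (t : Tag) : weight (jobOf adj N k t) = 1 := by
  simp [weight, jobOf, bval]

@[simp] theorem eligible_jobOf (N k : ℕ) (t : Tag) :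
    eligible (jobOf adj N k t) = elg adj N k t := rfl

/-! ## Arithmetic of the combs -/

theorem qs_le (N s : ℕ) : qs N s ≤ 2 * N := by
  have := Nat.mod_lt s (show 0 < 2 * N + 1 by omega)
  unfold qs
  omega

theorem shift_le (N k l s : ℕ) : shift N k l s ≤ 2 * N := by
  unfold shift
  split_ifs
  · exact qs_le N s
  · omega

theorem pos_succ (N k l s : ℕ) : pos N k l s + (3 * N + 5) ≤ pos N k l (s + 1) := by
  have h1 := shift_le N k l s
  unfold pos
  have h2 : (5 * N + 5) * (s + 1 + 1) = (5 * N + 5) * (s + 1) + (5 * N + 5) := by ring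
  rw [h2]
  omega

theorem pos_ge (N k l s : ℕ) : 5 * N + 5 ≤ pos N k l s := by
  unfold pos
  have : (5 * N + 5) * 1 ≤ (5 * N + 5) * (s + 1) := Nat.mul_le_mul_left _ (by omega)
  omega

theorem js_lt {N k s : ℕ} (hk : 0 < k) : js N k s < k := Nat.mod_lt _ hk

theorem is_lt {N k s : ℕ} (hk : 0 < k) : is N k s < k := Nat.mod_lt _ hk

/-- at the comb of the first machine the shift is `N` -/
theorem shift_is {N k s : ℕ} (h : is N k s ≠ js N k s) : shift N k (is N k s) s = N := by
  unfold shift
  rw [if_neg (fun hc => h hc.1)]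

theorem shift_js {N k s : ℕ} (h : is N k s ≠ js N k s) : shift N k (js N k s) s = qs N s := by
  unfold shift
  rw [if_pos ⟨rfl, h⟩]

/-- the offset of a job, seen from the machine `l` -/
def off (N l : ℕ) (t : Tag) : ℕ := if l = t.1.2.1 then t.1.2.2 else N + t.1.2.2 - qs N t.1.1

theorem mem_elg {N k : ℕ} {t : Tag} {l : ℕ} (h : l ∈ elg adj N k t) :
    l = t.1.2.1 ∨ (t.2 = true ∧ l = js N k t.1.1 ∧ t.1.2.1 = is N k t.1.1 ∧ l ≠ t.1.2.1 ∧
      is N k t.1.1 ≠ js N k t.1.1 ∧ qs N t.1.1 ≤ N + t.1.2.2 ∧ N + t.1.2.2 - qs N t.1.1 < N ∧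
      adj t.1.2.2 (N + t.1.2.2 - qs N t.1.1) = false) := by
  unfold elg at h
  split_ifs at h with h1
  · simp only [Bool.and_eq_true, decide_eq_true_eq, shI, Bool.not_eq_true'] at h1
    simp only [List.mem_cons, List.not_mem_nil, or_false] at h
    rcases h with h | h
    · exact Or.inl h
    · right
      refine ⟨h1.1, h, h1.2.1, ?_, h1.2.2.1, h1.2.2.2.1, h1.2.2.2.2.1, h1.2.2.2.2.2⟩
      rw [h, h1.2.1]
      exact (Ne.symm h1.2.2.1)
  · simp only [List.mem_cons, List.not_mem_nil, or_false] at h
    exact Or.inl h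

/-- the interval of a gap job, seen from an eligible machine -/
theorem view_gap {N k : ℕ} {s a l' l : ℕ} (h : l ∈ elg adj N k ((s, l', a), true)) (ha : a < N) :
    st N k ((s, l', a), true) = pos N k l s + off N l ((s, l', a), true) - (N + 1) ∧
    en N k ((s, l', a), true) = pos N k l s + off N l ((s, l', a), true) ∧
    off N l ((s, l', a), true) < N := by
  rcases mem_elg h with h | ⟨-, h1, h2, h3, h4, h5, h6, -⟩
  · simp only at h
    subst h
    simp [st, en, off, ha]
  · simp only at h1 h2 h3 h4 h5 h6
    subst h2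
    have e1 : pos N k (is N k s) s + a = pos N k l s + (N + a - qs N s) := by
      unfold pos
      rw [shift_is h4, h1, shift_js h4]
      omega
    simp only [st, en, off, if_neg h3, if_true]
    rw [e1]
    exact ⟨rfl, rfl, h6⟩

/-- a chain job is eligible on its own machine only -/
theorem view_chain {N k : ℕ} {s a l' l : ℕ} (h : l ∈ elg adj N k ((s, l', a), false)) : l = l' := by
  rcases mem_elg h with h | h
  · exact h
  · exact absurd h.1 (by simp)

/-! ## Two jobs on one machine -/

/-- disjointness of the intervals -/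
def Disj (N k : ℕ) (t t' : Tag) : Prop := en N k t ≤ st N k t' ∨ en N k t' ≤ st N k t

theorem not_disj_same {N k : ℕ} {s a a' l1 l1' l : ℕ} {c : Bool}
    (h : l ∈ elg adj N k ((s, l1, a), c)) (h' : l ∈ elg adj N k ((s, l1', a'), c))
    (ha : a < N) (ha' : a' < N) : ¬ Disj N k ((s, l1, a), c) ((s, l1', a'), c) := by
  cases c
  · have e1 := view_chain h
    have e2 := view_chain h'
    subst e1
    subst e2
    have h1 := pos_succ N k l s
    rintro (h2 | h2)
    · simp only [st, en] at h2
      simp only [Bool.false_eq_true, if_false] at h2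
      omega
    · simp only [st, en] at h2
      simp only [Bool.false_eq_true, if_false] at h2
      omega
  · obtain ⟨e1, e2, e3⟩ := view_gap h ha
    obtain ⟨f1, f2, f3⟩ := view_gap h' ha'
    have h1 := pos_ge N k l s
    rintro (h2 | h2)
    · rw [e2, f1] at h2; omega
    · rw [f2, e1] at h2; omega

/-- gap job before chain job of the same position: offsets increase -/
theorem off_gap_chain {N k : ℕ} {s a a' l1 l1' l : ℕ}
    (h : l ∈ elg adj N k ((s, l1, a), true)) (h' : l ∈ elg adj N k ((s, l1', a'), false))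
    (ha : a < N) (hd : Disj N k ((s, l1, a), true) ((s, l1', a'), false)) :
    off N l ((s, l1, a), true) ≤ a' := by
  obtain ⟨e1, e2, e3⟩ := view_gap h ha
  have e4 := view_chain h'
  subst e4
  have h1 := pos_succ N k l s
  rcases hd with h2 | h2
  · rw [e2] at h2
    simp only [st] at h2
    simp only [Bool.false_eq_true, if_false] at h2
    omega
  · rw [e1] at h2
    simp only [en] at h2
    simp only [Bool.false_eq_true, if_false] at h2
    omega

/-- chain job before the gap job of the next position: offsets increase -/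
theorem off_chain_gap {N k : ℕ} {s a a' l1 l1' l : ℕ}
    (h : l ∈ elg adj N k ((s + 1, l1, a), true)) (h' : l ∈ elg adj N k ((s, l1', a'), false))
    (ha : a < N) (ha' : a' < N) (hd : Disj N k ((s, l1', a'), false) ((s + 1, l1, a), true)) :
    a' ≤ off N l ((s + 1, l1, a), true) := by
  obtain ⟨e1, e2, e3⟩ := view_gap h ha
  have e4 := view_chain h'
  subst e4
  have h1 := pos_succ N k l s
  rcases hd with h2 | h2
  · rw [e1] at h2
    simp only [en] at h2
    simp only [Bool.false_eq_true, if_false] at h2
    omega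
  · rw [e2] at h2
    simp only [st] at h2
    simp only [Bool.false_eq_true, if_false] at h2
    omega

end Pool.Agent.Lib.MP_f25cb6_lc
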