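import Pool.Agent.Lib.MP_634427_lc.Data

/-!
# Definitions for problem MP_f25cb6_lc

Interval scheduling with machine eligibility, `P | M_j, d_j - r_j = p_j | Σ w_j U_j`, cliques, and
the notions of parameterized complexity (fixed-parameter tractability, parameterized reductions,
`W[1]`).

Inputs are words over `{0,1}`.  A word codes a binary tree (`code`), and trees code pairs, lists and
natural numbers (`enc`; natural numbers in unary, words are used for numbers in binary).  `PT f`
says that `f` is computable in polynomial time (Cobham's function algebra on binary trees, see
`Pool.Agent.Lib.MP_634427_lc.Model`).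
-/

namespace Pool.Agent.Lib.MP_f25cb6_lc

open MP_634427_lc

/-! ## The scheduling problem -/

/-- A job: release date, due date and weight in binary (least significant bit first), and the list
of the eligible machines. -/
abbrev Job := (Word × Word) × (Word × List ℕ)

/-- release date -/
def release (t : Job) : ℕ := bval t.1.1

/-- due date; the processing time is `due t - release t` -/
def due (t : Job) : ℕ := bval t.1.2

/-- weight -/
def weight (t : Job) : ℕ := bval t.2.1

/-- the eligible machines -/
def eligible (t : Job) : List ℕ := t.2.2

/-- The list `J` is a list of jobs for the machines `0, …, m-1`, each with a positive processing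
time. -/
def Valid (m : ℕ) (J : List Job) : Prop :=
  ∀ t ∈ J, release t < due t ∧ ∀ i ∈ eligible t, i < m

/-- A schedule assigns to each job a machine, or no machine.  It is feasible if each job that gets a
machine gets an eligible one, and if the time intervals `[release, due)` of different jobs on the
same machine are disjoint. -/
structure Feasible (m : ℕ) (J : List Job) (σ : Fin J.length → Option (Fin m)) : Prop where
  /-- jobs run on eligible machines -/
  elig : ∀ j i, σ j = some i → (i : ℕ) ∈ eligible (J.get j)
  /-- jobs on the same machine do not overlap -/
  disj : ∀ j j' i, j ≠ j' → σ j = some i → σ j' = some i →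
    due (J.get j) ≤ release (J.get j') ∨ due (J.get j') ≤ release (J.get j)

/-- The total weight of the jobs that are processed. -/
def value {m : ℕ} (J : List Job) (σ : Fin J.length → Option (Fin m)) : ℕ :=
  ∑ j, if (σ j).isSome then weight (J.get j) else 0

/-- The scheduling problem (decision version), parameterized by the number of machines: the input
consists of the number `m` of machines, the list of jobs and a number `b` in binary; the question is
whether some feasible schedule has total weight at least `b`.  The parameter, the second component
of the pair, is the number of machines. -/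
def SCHED : Set (Word × ℕ) :=
  {p | ∃ (J : List Job) (b : Word), p.1 = code (enc ((p.2, J), b)) ∧ Valid p.2 J ∧
    ∃ σ : Fin J.length → Option (Fin p.2), Feasible p.2 J σ ∧ bval b ≤ value J σ}

/-- The restriction of the scheduling problem to instances in which all jobs have weight one and
each job has at most two eligible machines. -/
def SCHEDTwo : Set (Word × ℕ) :=
  {p | ∃ (J : List Job) (b : Word), p.1 = code (enc ((p.2, J), b)) ∧ Valid p.2 J ∧
    (∀ t ∈ J, weight t = 1 ∧ (eligible t).length ≤ 2) ∧
    ∃ σ : Fin J.length → Option (Fin p.2), Feasible p.2 J σ ∧ bval b ≤ value J σ}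

/-! ## Cliques -/

/-- The clique problem, parameterized by the size `k` of the clique: the input is a graph with
vertices `0, …, N-1` and list of edges `E` (without loops); the question is whether there are `k`
pairwise adjacent vertices.  The parameter, the second component of the pair, is `k`. -/
def CLIQUE : Set (Word × ℕ) :=
  {p | ∃ (N : ℕ) (E : List (ℕ × ℕ)), p.1 = code (enc (N, E)) ∧
    (∀ e ∈ E, e.1 < N ∧ e.2 < N ∧ e.1 ≠ e.2) ∧
    ∃ v : Fin p.2 → ℕ, (∀ i, v i < N) ∧ ∀ i j, i ≠ j → (v i, v j) ∈ E ∨ (v j, v i) ∈ E}

/-! ## Parameterized complexity

A parameterized problem is a set of pairs of a word and a natural number, the parameter.  Running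
time `f(k) · |x|^O(1)` with computable `f` is expressed in the usual equivalent way: polynomial time
in the input together with a number (in unary) that is a computable function of the parameter. -/

/-- `Q` is fixed-parameter tractable. -/
def FPT (Q : Set (Word × ℕ)) : Prop :=
  ∃ (f : ℕ → ℕ) (A : (Word × ℕ) × ℕ → Bool), Computable f ∧ PT A ∧
    ∀ x k, (x, k) ∈ Q ↔ A ((x, k), f k) = true

/-- `Q` is reducible to `Q'` by a parameterized reduction. -/
def FptReduces (Q Q' : Set (Word × ℕ)) : Prop :=
  ∃ (f g : ℕ → ℕ) (R : (Word × ℕ) × ℕ → Word × ℕ), Computable f ∧ Computable g ∧ PT R ∧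
    ∀ x k, (R ((x, k), f k)).2 ≤ g k ∧ ((x, k) ∈ Q ↔ R ((x, k), f k) ∈ Q')

/-- The class `W[1]`: the parameterized problems that are reducible to the clique problem. -/
def InW1 (Q : Set (Word × ℕ)) : Prop := FptReduces Q CLIQUE

/-- `W[1]`-hardness. -/
def W1Hard (Q : Set (Word × ℕ)) : Prop := ∀ Q' : Set (Word × ℕ), InW1 Q' → FptReduces Q' Q

end Pool.Agent.Lib.MP_f25cb6_lc
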