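import Pool.Agent.Lib.MP_f25cb6_lc.Transfer
import Pool.Agent.Lib.MP_be4430_lc.M7_Parse
import Pool.Agent.Lib.MP_634427_lc.IsoFam

/-! # The reduction is computable in polynomial time -/

namespace Pool.Agent.Lib.MP_f25cb6_lc

open MP_634427_lc MP_be4430_lc

variable {γ : Type} [Enc γ]

theorem pt_div {f g : γ → ℕ} (hf : PT f) (hg : PT g) : PT fun c => f c / g c := by
  have h1 : PT fun c => ((List.range (f c)).filter fun i =>
      decide ((i + 1) * g c ≤ f c) && decide (0 < g c)).length :=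
    PT.length (PT.filter (p := fun c i => decide ((i + 1) * g c ≤ f c) && decide (0 < g c))
      (PT.range hf) (PT.and (PT.le (PT.mul (PT.succ PT.snd) (hg.comp PT.fst)) (hf.comp PT.fst))
        (PT.lt (PT.const 0) (hg.comp PT.fst))))
  refine h1.of_eq fun c => ?_
  rcases Nat.eq_zero_or_pos (g c) with h | h
  · simp [h]
  · have h2 : ((List.range (f c)).filter fun i =>
        decide ((i + 1) * g c ≤ f c) && decide (0 < g c)) = (List.range (f c)).filter fun i =>
        decide (i < f c / g c) := by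
      refine List.filter_congr fun i _ => ?_
      rw [decide_eq_true h, Bool.and_true]
      congr 1
      rw [← Nat.le_div_iff_mul_le h, Nat.succ_le_iff]
    rw [h2]
    have h3 : f c / g c ≤ f c := Nat.div_le_self _ _
    generalize f c / g c = q at h3
    generalize f c = n at h3
    obtain ⟨d, rfl⟩ := Nat.exists_eq_add_of_le h3
    rw [List.range_add, List.filter_append, List.filter_eq_self.2, List.filter_eq_nil_iff.2]
    · simp
    · intro a ha
      obtain ⟨b, -, rfl⟩ := List.mem_map.1 ha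
      simp
    · intro a ha
      simpa using ha

/-! ## The instance -/

variable {N k s l a : γ → ℕ}

theorem pt_M (hN : PT N) : PT fun c => 2 * N c + 1 := PT.succ (PT.mul (PT.const 2) hN)

theorem pt_S (hN : PT N) (hk : PT k) : PT fun c => S (N c) (k c) :=
  PT.mul (PT.succ (PT.mul hk hN)) (PT.mul hk (PT.mul hk (pt_M hN)))

theorem pt_qs (hN : PT N) (hs : PT s) : PT fun c => qs (N c) (s c) := PT.mod hs (pt_M hN)

theorem pt_js (hN : PT N) (hk : PT k) (hs : PT s) : PT fun c => js (N c) (k c) (s c) :=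
  PT.mod (pt_div hs (pt_M hN)) hk

theorem pt_is (hN : PT N) (hk : PT k) (hs : PT s) : PT fun c => is (N c) (k c) (s c) :=
  PT.mod (pt_div (pt_div hs (pt_M hN)) hk) hk

theorem pt_ne {f g : γ → ℕ} (hf : PT f) (hg : PT g) : PT fun c => decide (f c ≠ g c) :=
  (PT.not (PT.eqNat hf hg)).of_eq fun c => by simp

theorem pt_shift (hN : PT N) (hk : PT k) (hl : PT l) (hs : PT s) :
    PT fun c => shift (N c) (k c) (l c) (s c) :=
  (PT.cond (PT.and (PT.eqNat hl (pt_js hN hk hs)) (pt_ne (pt_is hN hk hs) (pt_js hN hk hs)))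
    (pt_qs hN hs) hN).of_eq fun c => by
      unfold shift
      rw [← Bool.decide_and, Bool.cond_decide]

theorem pt_pos (hN : PT N) (hk : PT k) (hl : PT l) (hs : PT s) :
    PT fun c => pos (N c) (k c) (l c) (s c) :=
  PT.add (PT.mul (PT.add (PT.mul (PT.const 5) hN) (PT.const 5)) (PT.succ hs))
    (pt_shift hN hk hl hs)

/-- adjacency in the graph with list of edges `E` -/
def adjE (E : List (ℕ × ℕ)) (a b : ℕ) : Bool :=
  E.any fun e => (decide (e.1 = a) && decide (e.2 = b)) || (decide (e.1 = b) && decide (e.2 = a))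

theorem adjE_iff (E : List (ℕ × ℕ)) (a b : ℕ) : adjE E a b = true ↔ (a, b) ∈ E ∨ (b, a) ∈ E := by
  unfold adjE
  rw [List.any_eq_true]
  constructor
  · rintro ⟨⟨x, y⟩, he, h⟩
    simp only [Bool.or_eq_true, Bool.and_eq_true, decide_eq_true_eq] at h
    rcases h with ⟨rfl, rfl⟩ | ⟨rfl, rfl⟩
    · exact Or.inl he
    · exact Or.inr he
  · rintro (h | h)
    · exact ⟨_, h, by simp⟩
    · exact ⟨_, h, by simp⟩

theorem pt_adjE {E : γ → List (ℕ × ℕ)} {a b : γ → ℕ} (hE : PT E) (ha : PT a) (hb : PT b) :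
    PT fun c => adjE (E c) (a c) (b c) :=
  PT.any (p := fun c (e : ℕ × ℕ) => (decide (e.1 = a c) && decide (e.2 = b c)) ||
    (decide (e.1 = b c) && decide (e.2 = a c))) hE
    (PT.or (PT.and (PT.eqNat (PT.fst' PT.snd) (ha.comp PT.fst))
      (PT.eqNat (PT.snd' PT.snd) (hb.comp PT.fst)))
      (PT.and (PT.eqNat (PT.fst' PT.snd) (hb.comp PT.fst))
      (PT.eqNat (PT.snd' PT.snd) (ha.comp PT.fst))))

variable {E : γ → List (ℕ × ℕ)}

theorem pt_shI (hE : PT E) (hN : PT N) (hk : PT k) (hs : PT s) (ha : PT a) :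
    PT fun c => shI (adjE (E c)) (N c) (k c) (s c) (a c) := by
  have h1 : PT fun c => N c + a c - qs (N c) (s c) := PT.sub (PT.add hN ha) (pt_qs hN hs)
  exact PT.and (pt_ne (pt_is hN hk hs) (pt_js hN hk hs))
    (PT.and (PT.le (pt_qs hN hs) (PT.add hN ha)) (PT.and (PT.lt h1 hN)
      (PT.not (pt_adjE hE ha h1))))

theorem pt_shJ (hE : PT E) (hN : PT N) (hk : PT k) (hs : PT s) (ha : PT a) :
    PT fun c => shJ (adjE (E c)) (N c) (k c) (s c) (a c) := by
  have h1 : PT fun c => qs (N c) (s c) + a c - N c := PT.sub (PT.add (pt_qs hN hs) ha) hN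
  exact PT.and (pt_ne (pt_is hN hk hs) (pt_js hN hk hs))
    (PT.and (PT.le hN (PT.add (pt_qs hN hs) ha)) (PT.and (PT.lt h1 hN)
      (PT.not (pt_adjE hE h1 ha))))

variable {t : γ → Tag}

theorem pt_ok (hE : PT E) (hN : PT N) (hk : PT k) (ht : PT t) :
    PT fun c => ok (adjE (E c)) (N c) (k c) (t c) := by
  have hs : PT fun c => (t c).1.1 := PT.fst' (PT.fst' ht)
  have hl : PT fun c => (t c).1.2.1 := PT.fst' (PT.snd' (PT.fst' ht))
  have ha : PT fun c => (t c).1.2.2 := PT.snd' (PT.snd' (PT.fst' ht))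
  exact PT.not (PT.and (PT.snd' ht) (PT.and (PT.eqNat hl (pt_js hN hk hs))
    (pt_shJ hE hN hk hs ha)))

theorem pt_elg (hE : PT E) (hN : PT N) (hk : PT k) (ht : PT t) :
    PT fun c => elg (adjE (E c)) (N c) (k c) (t c) := by
  have hs : PT fun c => (t c).1.1 := PT.fst' (PT.fst' ht)
  have hl : PT fun c => (t c).1.2.1 := PT.fst' (PT.snd' (PT.fst' ht))
  have ha : PT fun c => (t c).1.2.2 := PT.snd' (PT.snd' (PT.fst' ht))
  refine (PT.cond (PT.and (PT.snd' ht) (PT.and (PT.eqNat hl (pt_is hN hk hs))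
    (pt_shI hE hN hk hs ha))) (PT.cons hl (PT.cons (pt_js hN hk hs) (PT.const [])))
    (PT.cons hl (PT.const []))).of_eq fun c => ?_
  unfold elg
  rcases ((t c).2 && (decide ((t c).1.2.1 = is (N c) (k c) (t c).1.1) &&
    shI (adjE (E c)) (N c) (k c) (t c).1.1 (t c).1.2.2)) with _ | _ <;> simp

theorem pt_st (hN : PT N) (hk : PT k) (ht : PT t) : PT fun c => st (N c) (k c) (t c) := by
  have hs : PT fun c => (t c).1.1 := PT.fst' (PT.fst' ht)
  have hl : PT fun c => (t c).1.2.1 := PT.fst' (PT.snd' (PT.fst' ht))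
  have ha : PT fun c => (t c).1.2.2 := PT.snd' (PT.snd' (PT.fst' ht))
  have hp := PT.add (pt_pos hN hk hl hs) ha
  refine (PT.cond (PT.snd' ht) (PT.sub hp (PT.succ hN)) hp).of_eq fun c => ?_
  unfold st
  rcases (t c).2 with _ | _ <;> simp

theorem pt_en (hN : PT N) (hk : PT k) (ht : PT t) : PT fun c => en (N c) (k c) (t c) := by
  have hs : PT fun c => (t c).1.1 := PT.fst' (PT.fst' ht)
  have hl : PT fun c => (t c).1.2.1 := PT.fst' (PT.snd' (PT.fst' ht))
  have ha : PT fun c => (t c).1.2.2 := PT.snd' (PT.snd' (PT.fst' ht))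
  have hp := PT.add (pt_pos hN hk hl hs) ha
  have hp' := PT.sub (PT.add (pt_pos hN hk hl (PT.succ hs)) ha) (PT.succ hN)
  refine (PT.cond (PT.snd' ht) hp hp').of_eq fun c => ?_
  unfold en
  rcases (t c).2 with _ | _ <;> simp

theorem pt_jobOf (hE : PT E) (hN : PT N) (hk : PT k) (ht : PT t) :
    PT fun c => jobOf (adjE (E c)) (N c) (k c) (t c) :=
  PT.pair (PT.pair (pt_toBin (pt_st hN hk ht)) (pt_toBin (pt_en hN hk ht)))
    (PT.pair (PT.const [true]) (pt_elg hE hN hk ht))

theorem pt_product {α β : Type} [Enc α] [Enc β] {L : γ → List α} {L' : γ → List β} (hL : PT L)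
    (hL' : PT L') : PT fun c => (L c).product (L' c) :=
  PT.flatMap (f := fun c a => (L' c).map (Prod.mk a)) hL
    (PT.map (f := fun (p : γ × α) (b : β) => (p.2, b)) (hL'.comp PT.fst)
      (PT.pair (PT.snd' PT.fst) PT.snd))

theorem pt_tags (hE : PT E) (hN : PT N) (hk : PT k) :
    PT fun c => tags (adjE (E c)) (N c) (k c) :=
  PT.filter (p := fun c t => ok (adjE (E c)) (N c) (k c) t)
    (pt_product (pt_product (PT.range (pt_S hN hk)) (pt_product (PT.range hk) (PT.range hN)))
      (PT.const [false, true]))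
    (pt_ok (hE.comp PT.fst) (hN.comp PT.fst) (hk.comp PT.fst) PT.snd)

theorem pt_jobs (hE : PT E) (hN : PT N) (hk : PT k) :
    PT fun c => jobs (adjE (E c)) (N c) (k c) :=
  PT.map (f := fun c t => jobOf (adjE (E c)) (N c) (k c) t) (pt_tags hE hN hk)
    (pt_jobOf (hE.comp PT.fst) (hN.comp PT.fst) (hk.comp PT.fst) PT.snd)

/-! ## Reading the graph -/

/-- read a graph -/
def readG (w : Word) : ℕ × List (ℕ × ℕ) :=
  (spine (decode w).left, (toL (decode w).right).map fun u => (spine u.left, spine u.right))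

theorem readG_code (p : ℕ × List (ℕ × ℕ)) : readG (code (enc p)) = p := by
  have h := parseG_enc (p, ([] : Word))
  unfold readG
  rw [decode_code]
  have h1 := congrArg Prod.fst h
  exact h1

theorem pt_readG {w : γ → Word} (hw : PT w) : PT fun c => readG (w c) :=
  PT.pair (pt_spine (pt_left (PT.decode hw)))
    (PT.map (f := fun _ u => (spine u.left, spine u.right)) (pt_toL (pt_right (PT.decode hw)))
      (PT.pair (pt_spine (pt_left PT.snd)) (pt_spine (pt_right PT.snd))))

/-- does the word code a graph? -/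
def good (w : Word) : Bool :=
  decide (code (enc (readG w)) = w) && (readG w).2.all fun e =>
    decide (e.1 < (readG w).1) && (decide (e.2 < (readG w).1) && decide (e.1 ≠ e.2))

theorem pt_good {w : γ → Word} (hw : PT w) : PT fun c => good (w c) := by
  have hr := pt_readG hw
  have he : PT fun c => (enc (readG (w c)) : BT) := by
    obtain ⟨F, hF, h⟩ := hr
    exact ⟨F, hF, h⟩
  exact PT.and (PT.eqWord (PT.code he) hw) (PT.all
    (p := fun c e => decide (e.1 < (readG (w c)).1) && (decide (e.2 < (readG (w c)).1) &&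
      decide (e.1 ≠ e.2))) (PT.snd' hr)
    (PT.and (PT.lt (PT.fst' PT.snd) ((PT.fst' hr).comp PT.fst))
      (PT.and (PT.lt (PT.snd' PT.snd) ((PT.fst' hr).comp PT.fst))
        (pt_ne (PT.fst' PT.snd) (PT.snd' PT.snd)))))

theorem good_iff (w : Word) : good w = true ↔ code (enc (readG w)) = w ∧
    ∀ e ∈ (readG w).2, e.1 < (readG w).1 ∧ e.2 < (readG w).1 ∧ e.1 ≠ e.2 := by
  unfold good
  simp only [Bool.and_eq_true, decide_eq_true_eq, List.all_eq_true]

/-- The reduction: the instance with `k` machines that has a full schedule if and only if the graph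
has a clique of size `k`. -/
def red (p : Word × ℕ) : Word :=
  bif good p.1 then
    code (enc ((p.2, jobs (adjE (readG p.1).2) (readG p.1).1 p.2),
      toBin (2 * (p.2 * S (readG p.1).1 p.2))))
  else code (enc ((p.2, ([] : List Job)), [true]))

theorem pt_encode {α : Type} [Enc α] {f : γ → α} (hf : PT f) : PT fun c => (enc (f c) : BT) := by
  obtain ⟨F, hF, h⟩ := hf
  exact ⟨F, hF, h⟩

theorem pt_red : PT red := by
  have hr : PT fun p : Word × ℕ => readG p.1 := pt_readG PT.fst
  have hN := PT.fst' hr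
  have hE := PT.snd' hr
  exact PT.cond (pt_good PT.fst)
    (PT.code (pt_encode (PT.pair (PT.pair PT.snd (pt_jobs hE hN PT.snd))
      (pt_toBin (PT.mul (PT.const 2) (PT.mul PT.snd (pt_S hN PT.snd)))))))
    (PT.code (pt_encode (PT.pair (PT.pair PT.snd (PT.const ([] : List Job)))
      (PT.const [true]))))

theorem enc_job_injective : Function.Injective (enc : Job → BT) :=
  enc_pair_injective (enc_pair_injective enc_word_injective enc_word_injective)
    (enc_pair_injective enc_word_injective (enc_list_injective enc_nat_injective))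

theorem enc_inst_injective : Function.Injective (enc : (ℕ × List Job) × Word → BT) :=
  enc_pair_injective (enc_pair_injective enc_nat_injective (enc_list_injective enc_job_injective))
    enc_word_injective

theorem clique_iff (w : Word) (k : ℕ) : (w, k) ∈ CLIQUE ↔ good w = true ∧
    ∃ v : ℕ → ℕ, (∀ i < k, v i < (readG w).1) ∧
      ∀ i < k, ∀ j < k, i ≠ j → adjE (readG w).2 (v i) (v j) = true := by
  constructor
  · rintro ⟨N, E, hw, hE, v, hv, hadj⟩
    simp only at hw
    have hr : readG w = (N, E) := by rw [hw, readG_code]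
    rw [good_iff, hr]
    refine ⟨⟨hw.symm, hE⟩, fun i => if h : i < k then v ⟨i, h⟩ else 0, ?_, ?_⟩
    · intro i hi
      simp only [dif_pos hi]
      exact hv _
    · intro i hi j hj hij
      simp only [dif_pos hi, dif_pos hj]
      rw [adjE_iff]
      exact hadj _ _ (fun h => hij (congrArg Fin.val h))
  · rintro ⟨hg, v, hv, hadj⟩
    rw [good_iff] at hg
    refine ⟨(readG w).1, (readG w).2, hg.1.symm, hg.2, fun i => v i, fun i => hv i i.2, ?_⟩
    intro i j hij
    rw [← adjE_iff]
    exact hadj i i.2 j j.2 (fun h => hij (Fin.ext h))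

theorem red_spec (w : Word) (k : ℕ) :
    ((w, k) ∈ CLIQUE ↔ (red (w, k), k) ∈ SCHEDTwo) ∧
    ((w, k) ∈ CLIQUE ↔ (red (w, k), k) ∈ SCHED) := by
  have hsub : SCHEDTwo ⊆ SCHED := by
    rintro p ⟨J, b, h1, h2, -, h3⟩
    exact ⟨J, b, h1, h2, h3⟩
  have h1 : (w, k) ∈ CLIQUE → (red (w, k), k) ∈ SCHEDTwo := by
    rw [clique_iff]
    rintro ⟨hg, hv⟩
    refine ⟨jobs (adjE (readG w).2) (readG w).1 k, toBin (2 * (k * S (readG w).1 k)), ?_,
      jobs_valid _ _, jobs_two _ _, ?_⟩
    · simp only [red, hg, cond_true]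
    · rw [bval_toBin]
      exact exists_schedule_iff.2 hv
  have h2 : (red (w, k), k) ∈ SCHED → (w, k) ∈ CLIQUE := by
    rintro ⟨J, b, hJ, -, hσ⟩
    rw [clique_iff]
    simp only [red] at hJ
    rcases hg : good w with _ | _
    · rw [hg, cond_false] at hJ
      have := enc_inst_injective (code_injective hJ)
      rw [Prod.mk.injEq, Prod.mk.injEq] at this
      obtain ⟨⟨-, rfl⟩, rfl⟩ := this
      obtain ⟨σ, -, h⟩ := hσ
      exfalso
      simp [value, bval] at h
    · rw [hg, cond_true] at hJ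
      have := enc_inst_injective (code_injective hJ)
      rw [Prod.mk.injEq, Prod.mk.injEq] at this
      obtain ⟨⟨-, rfl⟩, rfl⟩ := this
      rw [bval_toBin] at hσ
      exact ⟨rfl, exists_schedule_iff.1 hσ⟩
  exact ⟨⟨h1, fun h => h2 (hsub h)⟩, ⟨fun h => hsub (h1 h), h2⟩⟩

theorem w1Hard_of_red {Q : Set (Word × ℕ)} (h : ∀ w k, (w, k) ∈ CLIQUE ↔ (red (w, k), k) ∈ Q) :
    W1Hard Q := by
  rintro Q' ⟨f, g, R, hf, hg, hR, hspec⟩
  refine ⟨f, g, fun x => (red (R x), (R x).2), hf, hg, PT.pair (pt_red.comp hR) (PT.snd' hR), ?_⟩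
  intro x k
  obtain ⟨h1, h2⟩ := hspec x k
  refine ⟨h1, h2.trans ?_⟩
  have := h (R ((x, k), f k)).1 (R ((x, k), f k)).2
  exact this

end Pool.Agent.Lib.MP_f25cb6_lc
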