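import Pool.Agent.Lib.MP_f25cb6_lc.Red

/-! # The reduction, with all its properties -/

namespace Pool.Agent.Lib.MP_f25cb6_lc

open MP_634427_lc MP_be4430_lc

/-- the list of jobs of the instance -/
def redJobs (p : Word × ℕ) : List Job :=
  bif good p.1 then jobs (adjE (readG p.1).2) (readG p.1).1 p.2 else []

/-- the number of jobs that have to be processed -/
def redBound (p : Word × ℕ) : ℕ :=
  bif good p.1 then 2 * (p.2 * S (readG p.1).1 p.2) else 1

theorem pt_redJobs : PT redJobs := by
  have hr : PT fun p : Word × ℕ => readG p.1 := pt_readG PT.fst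
  exact PT.cond (pt_good PT.fst) (pt_jobs (PT.snd' hr) (PT.fst' hr) PT.snd) (PT.const [])

theorem pt_redBound : PT redBound := by
  have hr : PT fun p : Word × ℕ => readG p.1 := pt_readG PT.fst
  exact PT.cond (pt_good PT.fst) (PT.mul (PT.const 2) (PT.mul PT.snd (pt_S (PT.fst' hr) PT.snd)))
    (PT.const 1)

theorem redJobs_valid (w : Word) (k : ℕ) : Valid k (redJobs (w, k)) := by
  unfold redJobs
  rcases hg : good w with _ | _
  · simp only [cond_false]
    intro t ht
    exact absurd ht (by simp)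
  · simp only [cond_true]
    exact jobs_valid _ _

theorem redJobs_two (w : Word) (k : ℕ) :
    ∀ t ∈ redJobs (w, k), weight t = 1 ∧ (eligible t).length ≤ 2 := by
  unfold redJobs
  rcases hg : good w with _ | _
  · simp only [cond_false]
    intro t ht
    exact absurd ht (by simp)
  · simp only [cond_true]
    exact jobs_two _ _

theorem redJobs_spec (w : Word) (k : ℕ) : (w, k) ∈ CLIQUE ↔
    ∃ σ, Feasible k (redJobs (w, k)) σ ∧ redBound (w, k) ≤ value (redJobs (w, k)) σ := by
  rw [clique_iff]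
  unfold redJobs redBound
  rcases hg : good w with _ | _
  · simp only [cond_false]
    constructor
    · rintro ⟨h, -⟩
      exact absurd h (by simp)
    · rintro ⟨σ, -, h⟩
      simp [value] at h
  · simp only [cond_true, true_and]
    exact exists_schedule_iff.symm

/-- the times are polynomially bounded -/
theorem redJobs_due : ∃ c : ℕ, ∀ w k, ∀ t ∈ redJobs (w, k), due t ≤ (w.length + k + 2) ^ c := by
  have hr : PT fun p : Word × ℕ => readG p.1 := pt_readG PT.fst
  have hN := PT.fst' hr
  have h1 : PT fun p : Word × ℕ => (tags (adjE (readG p.1).2) (readG p.1).1 p.2).map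
      (en (readG p.1).1 p.2) :=
    PT.map (f := fun (p : Word × ℕ) t => en (readG p.1).1 p.2 t)
      (pt_tags (PT.snd' hr) hN PT.snd)
      (pt_en (hN.comp PT.fst) (PT.snd' PT.fst) PT.snd)
  obtain ⟨c, hc⟩ := h1.size_le
  refine ⟨2 * c, fun w k t ht => ?_⟩
  unfold redJobs at ht
  rcases hg : good w with _ | _
  · simp [hg] at ht
  · simp only [hg, cond_true] at ht
    obtain ⟨u, hu, rfl⟩ := List.mem_map.1 ht
    rw [due_jobOf]
    have h2 := hc (w, k)
    have h3 : en (readG w).1 k u ∈ (tags (adjE (readG w).2) (readG w).1 k).map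
        (en (readG w).1 k) := List.mem_map_of_mem hu
    have h4 := sz_mem_le h3
    rw [sz_nat] at h4
    refine (h4.trans h2).trans ?_
    rw [pow_mul]
    refine Nat.pow_le_pow_left ?_ c
    have h5 := sz_word_le w
    simp only [sz_pair, sz_nat]
    nlinarith

theorem reduction : ∃ (J : Word × ℕ → List Job) (b : Word × ℕ → ℕ) (c : ℕ), PT J ∧ PT b ∧
    ∀ w k, Valid k (J (w, k)) ∧
      (∀ t ∈ J (w, k), weight t = 1 ∧ (eligible t).length ≤ 2 ∧
        due t ≤ (w.length + k + 2) ^ c) ∧
      ((w, k) ∈ CLIQUE ↔ ∃ σ, Feasible k (J (w, k)) σ ∧ b (w, k) ≤ value (J (w, k)) σ) := by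
  obtain ⟨c, hc⟩ := redJobs_due
  exact ⟨redJobs, redBound, c, pt_redJobs, pt_redBound, fun w k => ⟨redJobs_valid w k,
    fun t ht => ⟨(redJobs_two w k t ht).1, (redJobs_two w k t ht).2, hc w k t ht⟩,
    redJobs_spec w k⟩⟩

theorem fpt_clique_of_fpt (h : FPT SCHEDTwo) : FPT CLIQUE := by
  obtain ⟨f, A, hf, hA, hspec⟩ := h
  refine ⟨f, fun x => A ((red x.1, x.1.2), x.2), hf,
    hA.comp (PT.pair (PT.pair (pt_red.comp PT.fst) (PT.snd' PT.fst)) PT.snd), fun x k => ?_⟩
  rw [(red_spec x k).1]
  exact hspec _ _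

end Pool.Agent.Lib.MP_f25cb6_lc
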